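import Pool.Agent.Run7.h568.MC.Iface

/-! Piece MOB of helper568's project on bending multicurves (MP_a29257_gt). -/

namespace Run7.h778.MC

open Real Matrix Run7.h568.MC

abbrev M2 := Matrix (Fin 2) (Fin 2) ℝ

/-- Möbius action -/
noncomputable def act (M : M2) (x : ℝ) : ℝ := (M 0 0 * x + M 0 1) / (M 1 0 * x + M 1 1)

def Pos (M : M2) : Prop := ∀ i j, 0 < M i j

theorem Pos.mul {M N : M2} (hM : Pos M) (hN : Pos N) : Pos (M * N) := by
  intro i j
  rw [Matrix.mul_apply, Fin.sum_univ_two]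
  have := mul_pos (hM i 0) (hN 0 j)
  have := mul_pos (hM i 1) (hN 1 j)
  linarith

theorem den_pos {M : M2} (hM : Pos M) {x : ℝ} (hx : 0 < x) : 0 < M 1 0 * x + M 1 1 := by
  have := mul_pos (hM 1 0) hx
  have := hM 1 1
  linarith

theorem act_pos {M : M2} (hM : Pos M) {x : ℝ} (hx : 0 < x) : 0 < act M x := by
  unfold act
  have := mul_pos (hM 0 0) hx
  have := hM 0 1
  exact div_pos (by linarith) (den_pos hM hx)

theorem act_mul {M N : M2} (hM : Pos M) (hN : Pos N) {x : ℝ} (hx : 0 < x) :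
    act (M * N) x = act M (act N x) := by
  have h1 := den_pos hN hx
  have h2 := den_pos hM (act_pos hN hx)
  have h3 := den_pos (hM.mul hN) hx
  unfold act at h2 ⊢
  have h1' := h1.ne'
  have h2' := h2.ne'
  have h3' := h3.ne'
  simp only [Matrix.mul_apply, Fin.sum_univ_two] at h3' ⊢
  generalize hd : N 1 0 * x + N 1 1 = d at *
  have e : ∀ a b : ℝ, a * ((N 0 0 * x + N 0 1) / d) + b =
      (a * (N 0 0 * x + N 0 1) + b * d) / d := by
    intro a b
    field_simp
  rw [e, e, div_div_div_cancel_right₀ h1']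
  congr 1
  · rw [← hd]; ring
  · rw [← hd]; ring

/-- the positive fixed point -/
noncomputable def fixp (M : M2) : ℝ :=
  (M 0 0 - M 1 1 + √((M 0 0 - M 1 1) ^ 2 + 4 * (M 1 0 * M 0 1))) / (2 * M 1 0)

theorem disc_pos {M : M2} (hM : Pos M) : 0 < (M 0 0 - M 1 1) ^ 2 + 4 * (M 1 0 * M 0 1) := by
  have := mul_pos (hM 1 0) (hM 0 1)
  positivity

theorem fixp_pos {M : M2} (hM : Pos M) : 0 < fixp M := by
  unfold fixp
  have h10 := hM 1 0
  apply div_pos _ (by linarith)
  have h : |M 0 0 - M 1 1| < √((M 0 0 - M 1 1) ^ 2 + 4 * (M 1 0 * M 0 1)) := by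
    rw [← Real.sqrt_sq_eq_abs]
    apply Real.sqrt_lt_sqrt (sq_nonneg _)
    have := mul_pos (hM 1 0) (hM 0 1)
    linarith
  have := neg_abs_le (M 0 0 - M 1 1)
  linarith

theorem fixp_eq {M : M2} (hM : Pos M) :
    M 1 0 * fixp M ^ 2 = (M 0 0 - M 1 1) * fixp M + M 0 1 := by
  have h10 := (hM 1 0).ne'
  have hs := Real.sq_sqrt (disc_pos hM).le
  unfold fixp
  set s := √((M 0 0 - M 1 1) ^ 2 + 4 * (M 1 0 * M 0 1))
  field_simp
  linear_combination hs

theorem act_fixp {M : M2} (hM : Pos M) : act M (fixp M) = fixp M := by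
  unfold act
  rw [div_eq_iff (den_pos hM (fixp_pos hM)).ne']
  linear_combination -(fixp_eq hM)

theorem eq_fixp {M : M2} (hM : Pos M) {x : ℝ} (hx : 0 < x) (h : act M x = x) : x = fixp M := by
  unfold act at h
  rw [div_eq_iff (den_pos hM hx).ne'] at h
  have h1 : M 1 0 * x ^ 2 = (M 0 0 - M 1 1) * x + M 0 1 := by linear_combination -h
  have h2 := fixp_eq hM
  have h3 := fixp_pos hM
  by_contra hne
  have h4 : (x - fixp M) * (M 1 0 * (x * fixp M) + M 0 1) = 0 := by
    linear_combination fixp M * h1 - x * h2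
  rcases mul_eq_zero.1 h4 with h5 | h5
  · exact hne (by linarith)
  · have := mul_pos (hM 1 0) (mul_pos hx h3)
    have := hM 0 1
    linarith

section

variable {V : Type*} (A : Equiv.Perm V) (g00 g01 h10 h11 : V → ℝ)

noncomputable def Mt (τ : V → ℝ) (p : V) : M2 :=
  !![g01 p * Real.exp (-(τ (A p))), g00 p; h11 p * Real.exp (-(τ (A p))), h10 p]

noncomputable def Cm (τ : V → ℝ) : ℕ → V → M2
  | 0, p => Mt A g00 g01 h10 h11 τ p
  | k + 1, p => Mt A g00 g01 h10 h11 τ p * Cm τ k (A p)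

variable {g00 g01 h10 h11}

theorem Mt_pos (h0 : ∀ p, 0 < g00 p) (h1 : ∀ p, 0 < g01 p) (h2 : ∀ p, 0 < h10 p)
    (h3 : ∀ p, 0 < h11 p) (τ : V → ℝ) (p : V) : Pos (Mt A g00 g01 h10 h11 τ p) := by
  intro i j
  fin_cases i <;> fin_cases j
  · simpa [Mt] using mul_pos (h1 p) (Real.exp_pos _)
  · simpa [Mt] using h0 p
  · simpa [Mt] using mul_pos (h3 p) (Real.exp_pos _)
  · simpa [Mt] using h2 p

theorem Cm_pos (h0 : ∀ p, 0 < g00 p) (h1 : ∀ p, 0 < g01 p) (h2 : ∀ p, 0 < h10 p)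
    (h3 : ∀ p, 0 < h11 p) (τ : V → ℝ) (k : ℕ) : ∀ p, Pos (Cm A g00 g01 h10 h11 τ k p) := by
  induction k with
  | zero => exact fun p => Mt_pos A h0 h1 h2 h3 τ p
  | succ k ih => exact fun p => (Mt_pos A h0 h1 h2 h3 τ p).mul (ih _)

theorem Cm_comm (τ : V → ℝ) (k : ℕ) : ∀ p, Mt A g00 g01 h10 h11 τ p *
    Cm A g00 g01 h10 h11 τ k (A p) =
      Cm A g00 g01 h10 h11 τ k p * Mt A g00 g01 h10 h11 τ ((A ^ (k + 1)) p) := by
  induction k with
  | zero => intro p; simp [Cm]
  | succ k ih =>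
    intro p
    have e : (A ^ (k + 1 + 1)) p = (A ^ (k + 1)) (A p) := by
      rw [pow_succ, Equiv.Perm.mul_apply]
    rw [e]
    simp only [Cm]
    rw [ih (A p), Matrix.mul_assoc]

theorem act_Mt (τ : V → ℝ) (p : V) (x : ℝ) : act (Mt A g00 g01 h10 h11 τ p) x =
    (g01 p * (Real.exp (-(τ (A p))) * x) + g00 p) /
      (h11 p * (Real.exp (-(τ (A p))) * x) + h10 p) := by
  simp [act, Mt, mul_assoc]

theorem Mt_contDiff [Fintype V] (p : V) (i j : Fin 2) :
    ContDiff ℝ 2 fun τ : V → ℝ => Mt A g00 g01 h10 h11 τ p i j := by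
  have h : ContDiff ℝ 2 fun τ : V → ℝ => Real.exp (-(τ (A p))) :=
    Real.contDiff_exp.comp ((contDiff_apply ℝ ℝ (A p)).neg)
  fin_cases i <;> fin_cases j
  · simpa [Mt] using contDiff_const.mul h
  · simpa [Mt] using contDiff_const
  · simpa [Mt] using contDiff_const.mul h
  · simpa [Mt] using contDiff_const

theorem Cm_contDiff [Fintype V] (k : ℕ) : ∀ (p : V) (i j : Fin 2),
    ContDiff ℝ 2 fun τ : V → ℝ => Cm A g00 g01 h10 h11 τ k p i j := by
  induction k with
  | zero => exact fun p i j => Mt_contDiff A p i j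
  | succ k ih =>
    intro p i j
    simp only [Cm, Matrix.mul_apply, Fin.sum_univ_two]
    exact ((Mt_contDiff A p i 0).mul (ih _ 0 j)).add ((Mt_contDiff A p i 1).mul (ih _ 1 j))

end

theorem mob {V : Type*} [Fintype V] : S_MOB (V := V) := by
  classical
  intro A g00 g01 h10 h11 h0 h1 h2 h3 _
  obtain ⟨k, hk⟩ : ∃ k, A ^ (k + 1) = 1 := by
    refine ⟨orderOf A - 1, ?_⟩
    have : 0 < orderOf A := orderOf_pos A
    rw [Nat.sub_add_cancel this]
    exact pow_orderOf_eq_one A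
  have hP : ∀ τ p, Pos (Cm A g00 g01 h10 h11 τ k p) := fun τ p => Cm_pos A h0 h1 h2 h3 τ k p
  have hM : ∀ τ p, Pos (Mt A g00 g01 h10 h11 τ p) := fun τ p => Mt_pos A h0 h1 h2 h3 τ p
  refine ⟨fun τ p => fixp (Cm A g00 g01 h10 h11 τ k p), fun τ p => fixp_pos (hP τ p), ?_, ?_, ?_⟩
  · intro τ p
    rw [← act_Mt]
    symm
    apply eq_fixp (hP τ p) (act_pos (hM τ p) (fixp_pos (hP τ (A p))))
    rw [← act_mul (hP τ p) (hM τ p) (fixp_pos (hP τ (A p)))]
    have e := Cm_comm A (g00 := g00) (g01 := g01) (h10 := h10) (h11 := h11) τ k p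
    rw [hk, Equiv.Perm.one_apply] at e
    rw [← e, act_mul (hM τ p) (hP τ (A p)) (fixp_pos (hP τ (A p))), act_fixp (hP τ (A p))]
  · intro p
    have hc : ∀ i j, ContDiff ℝ 2 fun τ : V → ℝ => Cm A g00 g01 h10 h11 τ k p i j :=
      fun i j => Cm_contDiff A k p i j
    unfold fixp
    refine ContDiff.div ?_ ?_ ?_
    · refine ((hc 0 0).sub (hc 1 1)).add (ContDiff.sqrt ?_ fun τ => (disc_pos (hP τ p)).ne')
      exact (((hc 0 0).sub (hc 1 1)).pow 2).add (contDiff_const.mul ((hc 1 0).mul (hc 0 1)))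
    · exact contDiff_const.mul (hc 1 0)
    · intro τ
      have := hP τ p 1 0
      positivity
  · intro τ b hb hbe
    have key : ∀ n : ℕ, ∀ p, b p = act (Cm A g00 g01 h10 h11 τ n p) (b ((A ^ (n + 1)) p)) := by
      intro n
      induction n with
      | zero =>
        intro p
        have := hbe p
        rw [← act_Mt] at this
        simpa [Cm] using this
      | succ n ih =>
        intro p
        have e : (A ^ (n + 1 + 1)) p = (A ^ (n + 1)) (A p) := by
          rw [pow_succ, Equiv.Perm.mul_apply]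
        rw [e]
        simp only [Cm]
        rw [act_mul (hM τ p) (Cm_pos A h0 h1 h2 h3 τ n _) (hb _), ← ih (A p), act_Mt]
        exact hbe p
    funext p
    have e := key k p
    rw [hk, Equiv.Perm.one_apply] at e
    exact eq_fixp (hP τ p) (hb p) e.symm

end Run7.h778.MC
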