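import Pool.Agent.Run7.h568.MC.Iface
import Pool.Agent.Run7.h568.Basic

/-! Common lemmas for the pieces ORDER and LEAF of helper568's project on bending multicurves
(MP_a29257_gt). -/

namespace Run7.h778.MC

open Real Matrix Run7.h568 Run7.h568.MC

theorem det_T (x : ℝ) : (T x).det = 1 := by
  unfold T
  rw [Matrix.det_fin_two_of, ← Real.exp_add]
  simp

theorem det_R (x : ℝ) : (R x).det = 1 := by
  unfold R
  rw [Matrix.det_fin_two_of]
  have := Real.sin_sq_add_cos_sq (x / 2)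
  linear_combination this

theorem R_neg_mul (x : ℝ) : R (-x) * R x = 1 := by
  rw [R_mul]; simp [R_zero]

theorem R_mul_neg (x : ℝ) : R x * R (-x) = 1 := by
  rw [R_mul]; simp [R_zero]

theorem T_neg_mul (x : ℝ) : T (-x) * T x = 1 := by
  rw [T_mul]; simp [T_zero]

theorem T_mul_neg (x : ℝ) : T x * T (-x) = 1 := by
  rw [T_mul]; simp [T_zero]

theorem R_pi_mul_R_pi : R π * R π = -1 := by
  rw [R_pi]
  apply T_ext <;> simp

theorem R_pi_T_R_pi_T (x : ℝ) : T x * (R π * T x) = R π := by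
  rw [R_pi_mul_T, ← Matrix.mul_assoc, T_mul_neg, Matrix.one_mul]

section cross

variable {V : Type*} {P : Pattern V}

theorem det_cross (x θ : V → ℝ) (p : V) : (cross P x θ p).det = 1 := by
  unfold cross
  rw [Matrix.det_mul, Matrix.det_mul, det_R, det_T, det_R]
  norm_num

theorem cross_cross_iota (x θ : V → ℝ) (hx : ∀ p, x (P.iota p) = x p) (p : V) :
    cross P x θ p * cross P x θ (P.iota p) = -1 := by
  unfold cross
  rw [P.iota_iota, hx]
  have e : R (θ p) * T (x p) * R (π - θ (P.iota p)) *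
      (R (θ (P.iota p)) * T (x p) * R (π - θ p)) =
      R (θ p) * (T (x p) * ((R (π - θ (P.iota p)) * R (θ (P.iota p))) * T (x p))) *
        R (π - θ p) := by
    simp only [Matrix.mul_assoc]
  rw [e, R_mul, sub_add_cancel, R_pi_T_R_pi_T]
  rw [R_mul, R_mul]
  have e2 : θ p + π + (π - θ p) = π + π := by ring
  rw [e2, ← R_mul, R_pi_mul_R_pi]

theorem cross_iota_cross (x θ : V → ℝ) (hx : ∀ p, x (P.iota p) = x p) (p : V) :
    cross P x θ (P.iota p) * cross P x θ p = -1 := by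
  have := cross_cross_iota (P := P) x θ hx (P.iota p)
  rwa [P.iota_iota] at this

/-- from `p` to the next corner of the face, pointing along `β` -/
noncomputable def cy (P : Pattern V) (x y θ : V → ℝ) (p : V) : Matrix (Fin 2) (Fin 2) ℝ :=
  cross P x θ p * T (y (P.iota p))

theorem cy_eq (x y θ : V → ℝ) (p : V) :
    cy P x y θ p = R (θ p) * side P x y θ p * R (-θ (P.tau p)) := by
  unfold cy cross side
  have e : R (θ p) * (T (x p) * (R (π - θ (P.iota p)) * T (y (P.iota p)) * R (θ (P.tau p)))) *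
      R (-θ (P.tau p)) = R (θ p) * T (x p) * R (π - θ (P.iota p)) * T (y (P.iota p)) *
        (R (θ (P.tau p)) * R (-θ (P.tau p))) := by
    simp only [Matrix.mul_assoc]
  rw [e, R_mul_neg, Matrix.mul_one]

theorem side_eq (x y θ : V → ℝ) (p : V) :
    side P x y θ p = R (-θ p) * cy P x y θ p * R (θ (P.tau p)) := by
  rw [cy_eq]
  have e : R (-θ p) * (R (θ p) * side P x y θ p * R (-θ (P.tau p))) * R (θ (P.tau p)) =
      (R (-θ p) * R (θ p)) * side P x y θ p * (R (-θ (P.tau p)) * R (θ (P.tau p))) := by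
    simp only [Matrix.mul_assoc]
  rw [e, R_neg_mul, R_neg_mul, Matrix.one_mul, Matrix.mul_one]

theorem side_cy2 (x y θ : V → ℝ) (p : V) :
    side P x y θ p * side P x y θ (P.tau p) =
      R (-θ p) * (cy P x y θ p * cy P x y θ (P.tau p)) * R (θ (P.tau (P.tau p))) := by
  rw [side_eq, side_eq]
  have e : R (-θ p) * cy P x y θ p * R (θ (P.tau p)) *
      (R (-θ (P.tau p)) * cy P x y θ (P.tau p) * R (θ (P.tau (P.tau p)))) =
      R (-θ p) * cy P x y θ p * (R (θ (P.tau p)) * R (-θ (P.tau p))) *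
      cy P x y θ (P.tau p) * R (θ (P.tau (P.tau p))) := by
    simp only [Matrix.mul_assoc]
  rw [e, R_mul_neg, Matrix.mul_one]
  simp only [Matrix.mul_assoc]

theorem side_cy3 (x y θ : V → ℝ) (p : V) :
    side P x y θ p * side P x y θ (P.tau p) * side P x y θ (P.tau (P.tau p)) =
      R (-θ p) * (cy P x y θ p * cy P x y θ (P.tau p) * cy P x y θ (P.tau (P.tau p))) *
        R (θ (P.tau (P.tau (P.tau p)))) := by
  rw [side_cy2, side_eq]
  have e : R (-θ p) * (cy P x y θ p * cy P x y θ (P.tau p)) * R (θ (P.tau (P.tau p))) *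
      (R (-θ (P.tau (P.tau p))) * cy P x y θ (P.tau (P.tau p)) *
        R (θ (P.tau (P.tau (P.tau p))))) =
      R (-θ p) * (cy P x y θ p * cy P x y θ (P.tau p)) *
      (R (θ (P.tau (P.tau p))) * R (-θ (P.tau (P.tau p)))) * cy P x y θ (P.tau (P.tau p)) *
        R (θ (P.tau (P.tau (P.tau p)))) := by
    simp only [Matrix.mul_assoc]
  rw [e, R_mul_neg, Matrix.mul_one]
  simp only [Matrix.mul_assoc]

theorem side_cy4 (x y θ : V → ℝ) (p : V) :
    side P x y θ p * side P x y θ (P.tau p) * side P x y θ (P.tau (P.tau p)) *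
      side P x y θ (P.tau (P.tau (P.tau p))) =
      R (-θ p) * (cy P x y θ p * cy P x y θ (P.tau p) * cy P x y θ (P.tau (P.tau p)) *
        cy P x y θ (P.tau (P.tau (P.tau p)))) *
        R (θ (P.tau (P.tau (P.tau (P.tau p))))) := by
  rw [side_cy3, side_eq]
  set a := P.tau (P.tau (P.tau p))
  have e : R (-θ p) * (cy P x y θ p * cy P x y θ (P.tau p) * cy P x y θ (P.tau (P.tau p))) *
      R (θ a) * (R (-θ a) * cy P x y θ a * R (θ (P.tau a))) =
      R (-θ p) * (cy P x y θ p * cy P x y θ (P.tau p) * cy P x y θ (P.tau (P.tau p))) *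
      (R (θ a) * R (-θ a)) * cy P x y θ a * R (θ (P.tau a)) := by
    simp only [Matrix.mul_assoc]
  rw [e, R_mul_neg, Matrix.mul_one]
  simp only [Matrix.mul_assoc]

theorem conj_neg_one {M : Matrix (Fin 2) (Fin 2) ℝ} {a : ℝ} :
    R (-a) * M * R a = -1 ↔ M = -1 := by
  constructor
  · intro h
    have e : R a * (R (-a) * M * R a) * R (-a) = (R a * R (-a)) * M * (R a * R (-a)) := by
      simp only [Matrix.mul_assoc]
    rw [h, R_mul_neg, Matrix.one_mul, Matrix.mul_one] at e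
    rw [← e]
    simp [R_mul_neg]
  · rintro rfl
    simp [R_neg_mul]

/-- cyclic rearrangement of a closing relation -/
theorem rot_face {M C C' Tq : Matrix (Fin 2) (Fin 2) ℝ} (h : M * (C' * Tq) = -1)
    (hC : C' * C = -1) : Tq * M = C := by
  have h1 : (-(M * C')) * Tq = 1 := by
    rw [Matrix.neg_mul, Matrix.mul_assoc, h, neg_neg]
  have h2 : Tq * (-(M * C')) = 1 := mul_eq_one_comm.1 h1
  have h3 : Tq * M * C' = -1 := by
    rw [Matrix.mul_neg, ← Matrix.mul_assoc] at h2
    rw [← h2, neg_neg]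
  have h4 : Tq * M * (C' * C) = -C := by
    rw [← Matrix.mul_assoc, h3]; simp
  rw [hC] at h4
  simpa using h4

end cross

section metric

variable {V : Type*} {P : Pattern V} (m : HypMetric P)

theorem HG (p : V) : m.G p = cross P m.x m.θ p := rfl

noncomputable def CY (p : V) : Matrix (Fin 2) (Fin 2) ℝ := m.G p * T (m.y (P.iota p))

theorem CY_eq (p : V) : CY m p = cy P m.x m.y m.θ p := rfl

theorem det_G (p : V) : (m.G p).det = 1 := det_cross _ _ _

theorem G_iota_G (p : V) : m.G (P.iota p) * m.G p = -1 := cross_iota_cross _ _ m.x_iota p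

theorem G_G_iota (p : V) : m.G p * m.G (P.iota p) = -1 := cross_cross_iota _ _ m.x_iota p

theorem close_quad {p : V} (h : P.Quad p) : CY m p * CY m (P.tau p) = -1 := by
  have := m.closes_quad p h
  rw [side_cy2, show P.tau (P.tau p) = p from h] at this
  exact conj_neg_one.1 this

theorem close_hex {p : V} (h : P.Hex p) :
    CY m p * CY m (P.tau p) * CY m (P.tau (P.tau p)) = -1 := by
  have := m.closes_hex p h
  rw [side_cy3, show P.tau (P.tau (P.tau p)) = p from h] at this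
  exact conj_neg_one.1 this

theorem close_oct {p : V} (h : P.Oct p) :
    CY m p * CY m (P.tau p) * CY m (P.tau (P.tau p)) * CY m (P.tau (P.tau (P.tau p))) = -1 := by
  have := m.closes_oct p h
  rw [side_cy4, show P.tau (P.tau (P.tau (P.tau p))) = p from h.1] at this
  exact conj_neg_one.1 this

theorem rel_quad {q : V} (h : P.Quad (P.B q)) : T (m.y q) * CY m (P.B q) = m.G q := by
  have h1 := close_quad m h
  have h2 : P.tau (P.B q) = P.iota q := by
    apply P.tau_bij.1
    rw [show P.tau (P.tau (P.B q)) = P.B q from h, P.tau_iota]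
  rw [h2] at h1
  have h3 : CY m (P.iota q) = m.G (P.iota q) * T (m.y q) := by
    unfold CY; rw [P.iota_iota]
  rw [h3] at h1
  exact rot_face h1 (G_iota_G m q)

theorem rel_hex {q : V} (h : P.Hex (P.B q)) :
    T (m.y q) * (CY m (P.B q) * CY m (P.tau (P.B q))) = m.G q := by
  have h1 := close_hex m h
  have h2 : P.tau (P.tau (P.B q)) = P.iota q := by
    apply P.tau_bij.1
    rw [show P.tau (P.tau (P.tau (P.B q))) = P.B q from h, P.tau_iota]
  rw [h2] at h1
  have h3 : CY m (P.iota q) = m.G (P.iota q) * T (m.y q) := by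
    unfold CY; rw [P.iota_iota]
  rw [h3] at h1
  exact rot_face h1 (G_iota_G m q)

theorem rel_oct {q : V} (h : P.Oct (P.B q)) :
    T (m.y q) * (CY m (P.B q) * CY m (P.tau (P.B q)) * CY m (P.tau (P.tau (P.B q)))) =
      m.G q := by
  have h1 := close_oct m h
  have h2 : P.tau (P.tau (P.tau (P.B q))) = P.iota q := by
    apply P.tau_bij.1
    rw [show P.tau (P.tau (P.tau (P.tau (P.B q)))) = P.B q from h.1, P.tau_iota]
  rw [h2] at h1
  have h3 : CY m (P.iota q) = m.G (P.iota q) * T (m.y q) := by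
    unfold CY; rw [P.iota_iota]
  rw [h3] at h1
  exact rot_face h1 (G_iota_G m q)

end metric

section mob

theorem IsLeft.T_mul {M : Matrix (Fin 2) (Fin 2) ℝ} (h : IsLeft M) (x : ℝ) :
    IsLeft (T x * M) := by
  obtain ⟨h1, h2, h3, h4⟩ := h
  have e1 := Real.exp_pos (x / 2)
  have e2 := Real.exp_pos (-(x / 2))
  unfold T
  refine ⟨?_, ?_, ?_, ?_⟩ <;> simp [Matrix.mul_apply, Fin.sum_univ_two]
  · positivity
  · positivity
  · exact mul_neg_of_pos_of_neg e2 h3
  · exact mul_neg_of_pos_of_neg e2 h4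

theorem IsLeft.mul_T {M : Matrix (Fin 2) (Fin 2) ℝ} (h : IsLeft M) (x : ℝ) :
    IsLeft (M * T x) := by
  obtain ⟨h1, h2, h3, h4⟩ := h
  have e1 := Real.exp_pos (x / 2)
  have e2 := Real.exp_pos (-(x / 2))
  unfold T
  refine ⟨?_, ?_, ?_, ?_⟩ <;> simp [Matrix.mul_apply, Fin.sum_univ_two]
  · positivity
  · positivity
  · exact mul_neg_of_neg_of_pos h3 e1
  · exact mul_neg_of_neg_of_pos h4 e2

theorem Mob_den {K : Matrix (Fin 2) (Fin 2) ℝ} (h : IsLeft K) {w : ℝ} (hw : 0 < w) :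
    0 < -(K 1 1) * w - K 1 0 := by
  obtain ⟨h1, h2, h3, h4⟩ := h
  have := mul_pos (neg_pos.2 h4) hw
  linarith

theorem Mob_num {K : Matrix (Fin 2) (Fin 2) ℝ} (h : IsLeft K) {w : ℝ} (hw : 0 < w) :
    0 < K 0 1 * w + K 0 0 := by
  obtain ⟨h1, h2, h3, h4⟩ := h
  have := mul_pos h2 hw
  linarith

theorem Mob_pos {K : Matrix (Fin 2) (Fin 2) ℝ} (h : IsLeft K) {w : ℝ} (hw : 0 < w) :
    0 < Mob K w := div_pos (Mob_num h hw) (Mob_den h hw)

theorem Mob_lt_iff {K : Matrix (Fin 2) (Fin 2) ℝ} (h : IsLeft K) (hd : K.det = 1) {w w' : ℝ}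
    (hw : 0 < w) (hw' : 0 < w') : Mob K w < Mob K w' ↔ w < w' := by
  unfold Mob
  rw [div_lt_div_iff₀ (Mob_den h hw) (Mob_den h hw')]
  rw [Matrix.det_fin_two] at hd
  have e : (K 0 1 * w' + K 0 0) * (-(K 1 1) * w - K 1 0) -
      (K 0 1 * w + K 0 0) * (-(K 1 1) * w' - K 1 0) = w' - w := by
    linear_combination (w' - w) * hd
  constructor <;> intro h <;> linarith

theorem Mob_T_mul (K : Matrix (Fin 2) (Fin 2) ℝ) (y w : ℝ) :
    Mob (T y * K) w = Real.exp y * Mob K w := by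
  unfold Mob T
  simp [Matrix.mul_apply, Fin.sum_univ_two]
  have e : Real.exp y = Real.exp (y / 2) / Real.exp (-(y / 2)) := by
    rw [← Real.exp_sub]; congr 1; ring
  have e2 := Real.exp_pos (-(y / 2))
  rw [e, div_mul_div_comm]
  congr 1 <;> ring

theorem Mob_mul_T (K : Matrix (Fin 2) (Fin 2) ℝ) (y w : ℝ) :
    Mob (K * T y) w = Mob K (Real.exp (-y) * w) := by
  unfold Mob T
  simp [Matrix.mul_apply, Fin.sum_univ_two]
  have e : Real.exp (-y) = Real.exp (-(y / 2)) / Real.exp (y / 2) := by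
    rw [← Real.exp_sub]; congr 1; ring
  have e2 := (Real.exp_pos (y / 2)).ne'
  rw [e]
  rw [← mul_div_mul_left (K 0 1 * (Real.exp (-(y / 2)) / Real.exp (y / 2) * w) + K 0 0)
    (-(K 1 1 * (Real.exp (-(y / 2)) / Real.exp (y / 2) * w)) - K 1 0) e2]
  congr 1 <;> field_simp

theorem Mob_mul_lt {K N : Matrix (Fin 2) (Fin 2) ℝ} (hK : IsLeft K) (hN : IsLeft N)
    (hG : IsLeft (K * N)) (dK : K.det = 1) {w w' : ℝ} (hw : 0 < w) (hw' : 0 < w') :
    Mob (K * N) w < Mob K w' := by
  unfold Mob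
  rw [div_lt_div_iff₀ (Mob_den hG hw) (Mob_den hK hw')]
  rw [Matrix.det_fin_two] at dK
  obtain ⟨h1, h2, h3, h4⟩ := hN
  simp only [Matrix.mul_apply, Fin.sum_univ_two]
  have e : (K 0 1 * w' + K 0 0) * (-(K 1 0 * N 0 1 + K 1 1 * N 1 1) * w -
      (K 1 0 * N 0 0 + K 1 1 * N 1 0)) -
      ((K 0 0 * N 0 1 + K 0 1 * N 1 1) * w + (K 0 0 * N 0 0 + K 0 1 * N 1 0)) *
        (-(K 1 1) * w' - K 1 0) = N 0 1 * (w * w') + N 0 0 * w' + (-(N 1 1)) * w + (-(N 1 0)) := by
    linear_combination (N 0 1 * (w * w') + N 0 0 * w' - N 1 1 * w - N 1 0) * dK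
  have p1 := mul_pos h2 (mul_pos hw hw')
  have p2 := mul_pos h1 hw'
  have p3 := mul_pos (neg_pos.2 h4) hw
  have p4 := neg_pos.2 h3
  linarith

end mob

end Run7.h778.MC
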