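import Pool.Agent.Run7.h778.MC.ORDER

/-! Piece LEAF of helper568's project on bending multicurves (MP_a29257_gt). -/

namespace Run7.h778.MC

open Real Matrix Run7.h568 Run7.h568.MC

section key

variable {g : Matrix (Fin 2) (Fin 2) ℝ} {t s : ℝ}

/-- half the exponential of the edge length -/
noncomputable def XX (g : Matrix (Fin 2) (Fin 2) ℝ) (t s : ℝ) : ℝ :=
  (g 0 1 + s * g 0 0) * √(1 + t ^ 2) / √(1 + s ^ 2)

theorem XX_pos (hg : IsLeft g) (hs : 0 < s) : 0 < XX g t s := by
  obtain ⟨h1, h2, h3, h4⟩ := hg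
  unfold XX
  have := mul_pos hs h1
  positivity

theorem XX_sq :
    XX g t s ^ 2 * (1 + s ^ 2) = (g 0 1 + s * g 0 0) ^ 2 * (1 + t ^ 2) := by
  unfold XX
  have h1 : 0 < 1 + t ^ 2 := by positivity
  have h2 : 0 < 1 + s ^ 2 := by positivity
  rw [div_pow, mul_pow, Real.sq_sqrt h1.le, Real.sq_sqrt h2.le]
  field_simp

theorem XX_inv (hg : IsLeft g) (hd : g.det = 1) (ht : 0 < t) (hs : 0 < s)
    (c1 : t * (g 0 1 + s * g 0 0) = -(s * g 1 0 + g 1 1))
    (c2 : s * g 0 1 - g 0 0 = t * (s * g 1 1 - g 1 0)) :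
    (XX g t s)⁻¹ = (s * g 1 1 - g 1 0) * √(1 + t ^ 2) / √(1 + s ^ 2) := by
  have hX := XX_pos (t := t) hg hs
  apply inv_eq_of_mul_eq_one_right
  unfold XX
  have h1 : 0 < 1 + t ^ 2 := by positivity
  have h2 : 0 < 1 + s ^ 2 := by positivity
  have e1 := Real.sq_sqrt h1.le
  have e2 := Real.sq_sqrt h2.le
  have p2 := Real.sqrt_pos.2 h2
  rw [div_mul_div_comm, div_eq_one_iff_eq (by positivity)]
  rw [Matrix.det_fin_two] at hd
  have key : (g 0 1 + s * g 0 0) * (s * g 1 1 - g 1 0) * (1 + t ^ 2) = 1 + s ^ 2 := by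
    linear_combination (1 + s ^ 2) * hd + t * (s * g 1 1 - g 1 0) * c1 +
      (s * g 1 0 + g 1 1) * c2
  linear_combination key + (g 0 1 + s * g 0 0) * (s * g 1 1 - g 1 0) * e1 - e2

theorem cross_key (hg : IsLeft g) (hd : g.det = 1) (ht : 0 < t) (hs : 0 < s)
    (c1 : t * (g 0 1 + s * g 0 0) = -(s * g 1 0 + g 1 1))
    (c2 : s * g 0 1 - g 0 0 = t * (s * g 1 1 - g 1 0)) :
    R (2 * Real.arctan t) * T (2 * Real.log (XX g t s)) * R (π - 2 * Real.arctan s) = g := by
  have hX := XX_pos (t := t) hg hs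
  have hXi := XX_inv hg hd ht hs c1 c2
  have h1 : 0 < 1 + t ^ 2 := by positivity
  have h2 : 0 < 1 + s ^ 2 := by positivity
  have e1 := Real.sq_sqrt h1.le
  have e2 := Real.sq_sqrt h2.le
  have p1 := Real.sqrt_pos.2 h1
  have p2 := Real.sqrt_pos.2 h2
  rw [RTR_G]
  have f1 : 2 * Real.arctan t / 2 = Real.arctan t := by ring
  have f2 : 2 * Real.arctan s / 2 = Real.arctan s := by ring
  have f3 : 2 * Real.log (XX g t s) / 2 = Real.log (XX g t s) := by ring
  rw [f1, f2, f3, Real.exp_neg, Real.exp_log hX, hXi]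
  rw [Real.cos_arctan, Real.sin_arctan, Real.cos_arctan, Real.sin_arctan]
  unfold XX
  set u := √(1 + t ^ 2)
  set v := √(1 + s ^ 2)
  have hv2 : v ^ 2 = 1 + s ^ 2 := e2
  apply T_ext
  · simp only [Matrix.of_apply, Matrix.cons_val', Matrix.cons_val_zero, Matrix.cons_val_one,
      Matrix.cons_val_fin_one]
    field_simp
    linear_combination c2 - g 0 0 * hv2
  · simp only [Matrix.of_apply, Matrix.cons_val', Matrix.cons_val_zero, Matrix.cons_val_one,
      Matrix.cons_val_fin_one]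
    field_simp
    linear_combination (-s) * c2 - g 0 1 * hv2
  · simp only [Matrix.of_apply, Matrix.cons_val', Matrix.cons_val_zero, Matrix.cons_val_one,
      Matrix.cons_val_fin_one]
    field_simp
    linear_combination (-s) * c1 - g 1 0 * hv2
  · simp only [Matrix.of_apply, Matrix.cons_val', Matrix.cons_val_zero, Matrix.cons_val_one,
      Matrix.cons_val_fin_one]
    field_simp
    linear_combination (-1) * c1 - g 1 1 * hv2

theorem XX_gt (hg : IsLeft g) (hd : g.det = 1) (ht : 0 < t) (hs : 0 < s)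
    (c1 : t * (g 0 1 + s * g 0 0) = -(s * g 1 0 + g 1 1))
    (c2 : s * g 0 1 - g 0 0 = t * (s * g 1 1 - g 1 0)) : 1 < XX g t s := by
  have hX := XX_pos (t := t) hg hs
  have hXi := XX_inv hg hd ht hs c1 c2
  obtain ⟨g1, g2, g3, g4⟩ := hg
  have h1 : 0 < 1 + t ^ 2 := by positivity
  have h2 : 0 < 1 + s ^ 2 := by positivity
  have p1 := Real.sqrt_pos.2 h1
  have p2 := Real.sqrt_pos.2 h2
  have key : (XX g t s)⁻¹ < XX g t s := by
    rw [hXi]
    unfold XX
    rw [div_lt_div_iff_of_pos_right p2]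
    apply mul_lt_mul_of_pos_right _ p1
    -- s * P1 > t * Q, t * P1 > s * Q
    have a1 : s * (g 0 1 + s * g 0 0) - t * (s * g 1 1 - g 1 0) = g 0 0 * (1 + s ^ 2) := by
      linear_combination c2
    have a2 : t * (g 0 1 + s * g 0 0) - s * (s * g 1 1 - g 1 0) = -g 1 1 * (1 + s ^ 2) := by
      linear_combination c1
    have a3 : 0 < g 0 0 * (1 + s ^ 2) := by positivity
    have a4 : 0 < -g 1 1 * (1 + s ^ 2) := mul_pos (neg_pos.2 g4) h2
    by_contra hcon
    push Not at hcon
    have a5 : (s + t) * (g 0 1 + s * g 0 0) ≤ (s + t) * (s * g 1 1 - g 1 0) :=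
      mul_le_mul_of_nonneg_left hcon (by positivity)
    linarith
  by_contra hcon
  push Not at hcon
  have := (one_le_inv₀ hX).2 hcon
  linarith

theorem XX_iota (g' : Matrix (Fin 2) (Fin 2) ℝ) (h00 : g' 0 0 = -g 1 1) (h01 : g' 0 1 = g 0 1)
    (c1 : t * (g 0 1 + s * g 0 0) = -(s * g 1 0 + g 1 1))
    (c2 : s * g 0 1 - g 0 0 = t * (s * g 1 1 - g 1 0)) : XX g' s t = XX g t s := by
  have h1 : 0 < 1 + t ^ 2 := by positivity
  have h2 : 0 < 1 + s ^ 2 := by positivity
  have e1 := Real.sq_sqrt h1.le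
  have e2 := Real.sq_sqrt h2.le
  have p1 := Real.sqrt_pos.2 h1
  have p2 := Real.sqrt_pos.2 h2
  unfold XX
  rw [h00, h01, div_eq_div_iff p1.ne' p2.ne']
  have key : (g 0 1 - t * g 1 1) * (1 + s ^ 2) = (g 0 1 + s * g 0 0) * (1 + t ^ 2) := by
    linear_combination s * c2 - t * c1
  linear_combination key + (g 0 1 - t * g 1 1) * e2 - (g 0 1 + s * g 0 0) * e1

theorem TMT (x y : ℝ) (M : Matrix (Fin 2) (Fin 2) ℝ) : T x * M * T y =
    !![Real.exp (x / 2) * M 0 0 * Real.exp (y / 2), Real.exp (x / 2) * M 0 1 * Real.exp (-(y / 2));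
      Real.exp (-(x / 2)) * M 1 0 * Real.exp (y / 2),
      Real.exp (-(x / 2)) * M 1 1 * Real.exp (-(y / 2))] := by
  unfold T
  apply T_ext <;> simp [Matrix.mul_apply, Fin.sum_univ_two, Matrix.vecMul, dotProduct]

theorem neg_inv_entries {M N : Matrix (Fin 2) (Fin 2) ℝ} (h : N * M = -1) (hd : M.det = 1) :
    N = !![-M 1 1, M 0 1; M 1 0, -M 0 0] := by
  have e : N * (M * M.adjugate) = N := by rw [Matrix.mul_adjugate, hd]; simp
  rw [← Matrix.mul_assoc, h] at e
  rw [← e, Matrix.adjugate_fin_two]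
  apply T_ext <;> simp

end key

section leaf

variable {V : Type*} {P : Pattern V} (m : HypMetric P) {τ a : V → ℝ}

/-- `tan (θ' / 2)` -/
noncomputable def lt (P : Pattern V) (τ a : V → ℝ) (p : V) : ℝ :=
  √(Real.exp (τ p) / (a p * a (P.rho p)))

theorem lt_pos (ha : ∀ p, 0 < a p) (p : V) : 0 < lt P τ a p := by
  unfold lt
  have := ha p
  have := ha (P.rho p)
  exact Real.sqrt_pos.2 (by positivity)

theorem lt_sq (ha : ∀ p, 0 < a p) (p : V) :
    lt P τ a p ^ 2 = Real.exp (τ p) / (a p * a (P.rho p)) := by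
  unfold lt
  have := ha p
  have := ha (P.rho p)
  exact Real.sq_sqrt (by positivity)

theorem lt_rho (hτ : ∀ p, τ (P.rho p) = τ p) (p : V) : lt P τ a (P.rho p) = lt P τ a p := by
  unfold lt
  rw [hτ, P.rho_rho, mul_comm]

theorem exp_disp (ha : ∀ p, 0 < a p) (p : V) :
    Real.exp (disp (P := P) τ a p) ^ 2 = a p / a (P.rho p) * Real.exp (τ p) := by
  unfold disp
  rw [← Real.exp_nat_mul]
  have e : ((2 : ℕ) : ℝ) * ((Real.log (a p) - Real.log (a (P.rho p)) + τ p) / 2) =
      Real.log (a p) - Real.log (a (P.rho p)) + τ p := by push_cast; ring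
  rw [e, Real.exp_add, Real.exp_sub, Real.exp_log (ha _), Real.exp_log (ha _)]

theorem lt_eq (ha : ∀ p, 0 < a p) (p : V) :
    lt P τ a p = Real.exp (disp (P := P) τ a p) / a p := by
  have h1 := ha p
  have h2 := ha (P.rho p)
  have h3 := Real.exp_pos (disp (P := P) τ a p)
  rw [← Real.sqrt_sq (div_pos h3 h1).le]
  unfold lt
  congr 1
  rw [div_pow, exp_disp ha]
  field_simp

theorem disp_rho (hτ : ∀ p, τ (P.rho p) = τ p) (p : V) :
    disp (P := P) τ a (P.rho p) = τ p - disp (P := P) τ a p := by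
  unfold disp
  rw [hτ, P.rho_rho]
  ring

/-- the transport along `α` for the twisted metric -/
noncomputable def Gp (τ a : V → ℝ) (p : V) : Matrix (Fin 2) (Fin 2) ℝ :=
  T (-(disp (P := P) τ a p)) * m.G p * T (disp (P := P) τ a (P.iota p))

theorem det_Gp (p : V) : (Gp m τ a p).det = 1 := by
  unfold Gp
  rw [Matrix.det_mul, Matrix.det_mul, det_T, det_T, det_G]
  norm_num

theorem isLeft_Gp (p : V) : IsLeft (Gp m τ a p) := IsLeft.mul_T (IsLeft.T_mul (isLeft_G m p) _) _

theorem T_conj {M : Matrix (Fin 2) (Fin 2) ℝ} (h : M = -1) (x : ℝ) :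
    T (-x) * M * T x = -1 := by
  rw [h]
  simp [T_neg_mul]

theorem Gp_iota_Gp (p : V) : Gp m τ a (P.iota p) * Gp m τ a p = -1 := by
  unfold Gp
  rw [P.iota_iota]
  have e : T (-disp (P := P) τ a (P.iota p)) * m.G (P.iota p) * T (disp (P := P) τ a p) *
      (T (-disp (P := P) τ a p) * m.G p * T (disp (P := P) τ a (P.iota p))) =
      T (-disp (P := P) τ a (P.iota p)) * (m.G (P.iota p) * (T (disp (P := P) τ a p) *
      T (-disp (P := P) τ a p)) * m.G p) * T (disp (P := P) τ a (P.iota p)) := by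
    simp only [Matrix.mul_assoc]
  rw [e, T_mul_neg, Matrix.mul_one]
  exact T_conj (G_iota_G m p) _

theorem Gp_c1 (hτ : ∀ p, τ (P.rho p) = τ p) (ha : IsLeafA m τ a) (p : V) :
    lt P τ a p * ((Gp m τ a p) 0 1 + lt P τ a (P.iota p) * (Gp m τ a p) 0 0) =
      -(lt P τ a (P.iota p) * (Gp m τ a p) 1 0 + (Gp m τ a p) 1 1) := by
  have hapos := ha.1
  have hL := isLeft_G m p
  set w := Real.exp (-(τ (P.A p))) * a (P.A p) with hw
  have hwpos : 0 < w := mul_pos (Real.exp_pos _) (hapos _)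
  have hae : a p * (-((m.G p) 1 1) * w - (m.G p) 1 0) = (m.G p) 0 1 * w + (m.G p) 0 0 := by
    have := ha.2 p
    rw [← hw] at this
    unfold Mob at this
    rw [eq_div_iff (Mob_den hL hwpos).ne'] at this
    exact this
  set D := disp (P := P) τ a p with hD
  set D' := disp (P := P) τ a (P.iota p) with hD'
  -- `s * exp D' * w = 1`
  have h1 : lt P τ a (P.iota p) = Real.exp (disp (P := P) τ a (P.A p)) / a (P.A p) := by
    rw [← lt_eq hapos]
    unfold Pattern.A
    rw [lt_rho hτ]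
  have h2 : disp (P := P) τ a (P.A p) = τ (P.A p) - D' := by
    unfold Pattern.A
    rw [disp_rho hτ, hτ]
  have hs : lt P τ a (P.iota p) * Real.exp D' * w = 1 := by
    rw [h1, h2, hw, Real.exp_sub, Real.exp_neg]
    have e1 := (Real.exp_pos D').ne'
    have e2 := (Real.exp_pos (τ (P.A p))).ne'
    have e3 := (hapos (P.A p)).ne'
    field_simp
  have ht : lt P τ a p * a p = Real.exp D := by
    rw [lt_eq hapos p]
    have e3 := (hapos p).ne'
    field_simp
    rw [hD]
  unfold Gp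
  rw [← hD, ← hD', TMT]
  simp only [Matrix.of_apply, Matrix.cons_val', Matrix.cons_val_zero, Matrix.cons_val_one,
      Matrix.cons_val_fin_one]
  set t := lt P τ a p
  set s := lt P τ a (P.iota p)
  have eD : Real.exp D = Real.exp (D / 2) * Real.exp (D / 2) := by
    rw [← Real.exp_add]; congr 1; ring
  have eD' : Real.exp D' = Real.exp (D' / 2) * Real.exp (D' / 2) := by
    rw [← Real.exp_add]; congr 1; ring
  have n1 : Real.exp (-D / 2) * Real.exp (D / 2) = 1 := by
    rw [← Real.exp_add, neg_div, neg_add_cancel, Real.exp_zero]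
  have n1' : Real.exp (-(-D / 2)) = Real.exp (D / 2) := by congr 1; ring
  have n2 : Real.exp (-(D' / 2)) * Real.exp (D' / 2) = 1 := by
    rw [← Real.exp_add, neg_add_cancel, Real.exp_zero]
  rw [n1']
  rw [eD] at ht
  rw [eD'] at hs
  set E := Real.exp (D / 2)
  set E' := Real.exp (-D / 2)
  set F := Real.exp (D' / 2)
  set F' := Real.exp (-(D' / 2))
  have hsF : s * F * w = F' := by
    linear_combination F' * hs - s * F * w * n2
  have hwn := hwpos.ne'
  apply mul_left_cancel₀ hwn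
  linear_combination (t * E' * (m.G p) 0 0 + E * (m.G p) 1 0) * hsF - t * E' * F' * hae +
    E' * F' * (-((m.G p) 1 1) * w - (m.G p) 1 0) * ht +
    E * F' * (-((m.G p) 1 1) * w - (m.G p) 1 0) * n1

theorem Gp_c2 (hτ : ∀ p, τ (P.rho p) = τ p) (ha : IsLeafA m τ a) (p : V) :
    lt P τ a (P.iota p) * (Gp m τ a p) 0 1 - (Gp m τ a p) 0 0 =
      lt P τ a p * (lt P τ a (P.iota p) * (Gp m τ a p) 1 1 - (Gp m τ a p) 1 0) := by
  have h := Gp_c1 m hτ ha (P.iota p)
  rw [P.iota_iota, neg_inv_entries (Gp_iota_Gp m p) (det_Gp m p)] at h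
  simp at h
  linear_combination h

/-- `y'` -/
noncomputable def yp (τ a : V → ℝ) (p : V) : ℝ :=
  m.y p - disp (P := P) τ a p + disp (P := P) τ a (P.B p)

/-- `x'` -/
noncomputable def xp (τ a : V → ℝ) (p : V) : ℝ :=
  2 * Real.log (XX (Gp m τ a p) (lt P τ a p) (lt P τ a (P.iota p)))

/-- `θ'` -/
noncomputable def θp (P : Pattern V) (τ a : V → ℝ) (p : V) : ℝ := 2 * Real.arctan (lt P τ a p)

theorem y_rho' (p : V) : m.y (P.rho (P.B p)) = m.y p := m.y_rho p

/-- order relation -/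
theorem ord {P : Pattern V} {m : HypMetric P} (hτ : ∀ p, τ (P.B p) = τ p) (ha : IsLeafA m τ a)
    (q : V) : a q < Real.exp (m.y q) * a (P.B q) := by
  obtain ⟨n, hn⟩ := P.alpha_face' (P.B q)
  exact order_aux m hτ ha n q hn

/-- order relation, seen from the other side -/
theorem ord' {P : Pattern V} {m : HypMetric P} (hτ : ∀ p, τ (P.B p) = τ p)
    (ha : IsLeafA m τ a) (q : V) : a (P.rho (P.B q)) < Real.exp (m.y q) * a (P.rho q) := by
  have := ord hτ ha (P.rho (P.B q))
  rwa [m.y_rho, P.B_rho_B] at this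

theorem yp_pos (hB : ∀ p, τ (P.B p) = τ p) (ha : IsLeafA m τ a)
    (p : V) : 0 < yp m τ a p := by
  have h1 := Real.log_lt_log (ha.1 _) (ord hB ha p)
  have h2 := Real.log_lt_log (ha.1 _) (ord' hB ha p)
  rw [Real.log_mul (Real.exp_pos _).ne' (ha.1 _).ne', Real.log_exp] at h1 h2
  unfold yp disp
  rw [hB]
  linarith

theorem yp_rho (hτ : ∀ p, τ (P.rho p) = τ p) (hB : ∀ p, τ (P.B p) = τ p) (p : V) :
    yp m τ a (P.rho (P.B p)) = yp m τ a p := by
  unfold yp
  rw [m.y_rho, P.B_rho_B, disp_rho hτ, disp_rho hτ, hB]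
  ring

theorem θp_pos (ha : ∀ p, 0 < a p) (p : V) : 0 < θp P τ a p := by
  unfold θp
  have := Real.arctan_pos.2 (lt_pos (P := P) (τ := τ) ha p)
  positivity

theorem θp_lt (p : V) : θp P τ a p < π := by
  unfold θp
  have := Real.arctan_lt_pi_div_two (lt P τ a p)
  linarith

theorem cross' (hτ : ∀ p, τ (P.rho p) = τ p) (ha : IsLeafA m τ a) (p : V) :
    cross P (xp m τ a) (θp P τ a) p = Gp m τ a p := by
  unfold cross xp θp
  exact cross_key (isLeft_Gp m p) (det_Gp m p) (lt_pos ha.1 _) (lt_pos ha.1 _)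
    (Gp_c1 m hτ ha p) (Gp_c2 m hτ ha p)

theorem xp_pos (hτ : ∀ p, τ (P.rho p) = τ p) (ha : IsLeafA m τ a) (p : V) :
    0 < xp m τ a p := by
  unfold xp
  have := Real.log_pos (XX_gt (isLeft_Gp m p) (det_Gp m p) (lt_pos ha.1 _) (lt_pos ha.1 _)
    (Gp_c1 m hτ ha p) (Gp_c2 m hτ ha p))
  positivity

theorem xp_iota (hτ : ∀ p, τ (P.rho p) = τ p) (ha : IsLeafA m τ a) (p : V) :
    xp m τ a (P.iota p) = xp m τ a p := by
  unfold xp
  congr 2
  rw [P.iota_iota]
  have h := neg_inv_entries (Gp_iota_Gp m (τ := τ) (a := a) p) (det_Gp m p)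
  apply XX_iota _ _ _ (Gp_c1 m hτ ha p) (Gp_c2 m hτ ha p)
  · rw [h]; simp
  · rw [h]; simp

theorem cy' (hτ : ∀ p, τ (P.rho p) = τ p) (ha : IsLeafA m τ a) (p : V) :
    cy P (xp m τ a) (yp m τ a) (θp P τ a) p =
      T (-(disp (P := P) τ a p)) * CY m p * T (disp (P := P) τ a (P.tau p)) := by
  unfold cy
  rw [cross' m hτ ha]
  unfold Gp yp CY Pattern.tau
  have e : m.y (P.iota p) - disp (P := P) τ a (P.iota p) + disp (P := P) τ a (P.B (P.iota p)) =
      -disp (P := P) τ a (P.iota p) + m.y (P.iota p) + disp (P := P) τ a (P.B (P.iota p)) := by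
    ring
  rw [e, ← T_mul, ← T_mul]
  have e2 : T (-disp (P := P) τ a p) * m.G p * T (disp (P := P) τ a (P.iota p)) *
      (T (-disp (P := P) τ a (P.iota p)) * T (m.y (P.iota p)) *
        T (disp (P := P) τ a (P.B (P.iota p)))) =
      T (-disp (P := P) τ a p) * m.G p * (T (disp (P := P) τ a (P.iota p)) *
      T (-disp (P := P) τ a (P.iota p))) * T (m.y (P.iota p)) *
        T (disp (P := P) τ a (P.B (P.iota p))) := by
    simp only [Matrix.mul_assoc]
  rw [e2, T_mul_neg, Matrix.mul_one]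
  simp only [Matrix.mul_assoc]

theorem cy2' (hτ : ∀ p, τ (P.rho p) = τ p) (ha : IsLeafA m τ a) (p : V) :
    cy P (xp m τ a) (yp m τ a) (θp P τ a) p * cy P (xp m τ a) (yp m τ a) (θp P τ a) (P.tau p) =
      T (-(disp (P := P) τ a p)) * (CY m p * CY m (P.tau p)) *
        T (disp (P := P) τ a (P.tau (P.tau p))) := by
  rw [cy' m hτ ha, cy' m hτ ha]
  have e : T (-disp (P := P) τ a p) * CY m p * T (disp (P := P) τ a (P.tau p)) *
      (T (-disp (P := P) τ a (P.tau p)) * CY m (P.tau p) *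
        T (disp (P := P) τ a (P.tau (P.tau p)))) =
      T (-disp (P := P) τ a p) * CY m p * (T (disp (P := P) τ a (P.tau p)) *
      T (-disp (P := P) τ a (P.tau p))) * CY m (P.tau p) *
        T (disp (P := P) τ a (P.tau (P.tau p))) := by
    simp only [Matrix.mul_assoc]
  rw [e, T_mul_neg, Matrix.mul_one]
  simp only [Matrix.mul_assoc]

theorem cy3' (hτ : ∀ p, τ (P.rho p) = τ p) (ha : IsLeafA m τ a) (p : V) :
    cy P (xp m τ a) (yp m τ a) (θp P τ a) p * cy P (xp m τ a) (yp m τ a) (θp P τ a) (P.tau p) *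
      cy P (xp m τ a) (yp m τ a) (θp P τ a) (P.tau (P.tau p)) =
      T (-(disp (P := P) τ a p)) * (CY m p * CY m (P.tau p) * CY m (P.tau (P.tau p))) *
        T (disp (P := P) τ a (P.tau (P.tau (P.tau p)))) := by
  rw [cy2' m hτ ha, cy' m hτ ha]
  set q := P.tau (P.tau p)
  have e : T (-disp (P := P) τ a p) * (CY m p * CY m (P.tau p)) * T (disp (P := P) τ a q) *
      (T (-disp (P := P) τ a q) * CY m q * T (disp (P := P) τ a (P.tau q))) =
      T (-disp (P := P) τ a p) * (CY m p * CY m (P.tau p)) * (T (disp (P := P) τ a q) *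
      T (-disp (P := P) τ a q)) * CY m q * T (disp (P := P) τ a (P.tau q)) := by
    simp only [Matrix.mul_assoc]
  rw [e, T_mul_neg, Matrix.mul_one]
  simp only [Matrix.mul_assoc]

theorem cy4' (hτ : ∀ p, τ (P.rho p) = τ p) (ha : IsLeafA m τ a) (p : V) :
    cy P (xp m τ a) (yp m τ a) (θp P τ a) p * cy P (xp m τ a) (yp m τ a) (θp P τ a) (P.tau p) *
      cy P (xp m τ a) (yp m τ a) (θp P τ a) (P.tau (P.tau p)) *
      cy P (xp m τ a) (yp m τ a) (θp P τ a) (P.tau (P.tau (P.tau p))) =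
      T (-(disp (P := P) τ a p)) * (CY m p * CY m (P.tau p) * CY m (P.tau (P.tau p)) *
        CY m (P.tau (P.tau (P.tau p)))) *
        T (disp (P := P) τ a (P.tau (P.tau (P.tau (P.tau p))))) := by
  rw [cy3' m hτ ha, cy' m hτ ha]
  set q := P.tau (P.tau (P.tau p))
  have e : T (-disp (P := P) τ a p) * (CY m p * CY m (P.tau p) * CY m (P.tau (P.tau p))) *
      T (disp (P := P) τ a q) *
      (T (-disp (P := P) τ a q) * CY m q * T (disp (P := P) τ a (P.tau q))) =
      T (-disp (P := P) τ a p) * (CY m p * CY m (P.tau p) * CY m (P.tau (P.tau p))) *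
      (T (disp (P := P) τ a q) *
      T (-disp (P := P) τ a q)) * CY m q * T (disp (P := P) τ a (P.tau q)) := by
    simp only [Matrix.mul_assoc]
  rw [e, T_mul_neg, Matrix.mul_one]
  simp only [Matrix.mul_assoc]

/-- `tan` comparison, forward -/
theorem lt_cmp1 (ha : IsLeafA m τ a) (hB : ∀ p, τ (P.B p) = τ p) (q : V) :
    lt P τ a (P.B q) < lt P τ a q * Real.exp (yp m τ a q) := by
  rw [lt_eq ha.1, lt_eq ha.1]
  unfold yp
  rw [Real.exp_add, Real.exp_sub]
  have h1 := ha.1 q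
  have h2 := ha.1 (P.B q)
  have h3 := ord hB ha q
  have h4 := Real.exp_pos (disp (P := P) τ a (P.B q))
  have h5 := Real.exp_pos (disp (P := P) τ a q)
  have e : Real.exp (disp (P := P) τ a q) / a q * (Real.exp (m.y q) /
      Real.exp (disp (P := P) τ a q) * Real.exp (disp (P := P) τ a (P.B q))) =
      Real.exp (m.y q) * Real.exp (disp (P := P) τ a (P.B q)) / a q := by
    field_simp
  rw [e, div_lt_div_iff₀ h2 h1]
  calc _ < Real.exp (disp (P := P) τ a (P.B q)) * (Real.exp (m.y q) * a (P.B q)) :=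
        mul_lt_mul_of_pos_left h3 h4
    _ = _ := by ring

/-- `tan` comparison, backward -/
theorem lt_cmp2 (ha : IsLeafA m τ a) (hτ : ∀ p, τ (P.rho p) = τ p)
    (hB : ∀ p, τ (P.B p) = τ p) (q : V) :
    lt P τ a q < lt P τ a (P.B q) * Real.exp (yp m τ a q) := by
  have h := lt_cmp1 m ha hB (P.rho (P.B q))
  rwa [P.B_rho_B, lt_rho hτ, lt_rho hτ, yp_rho m hτ hB] at h

theorem isLeft_side (P : Pattern V) {x y θ : V → ℝ} {p : V} (hθ : ∀ p, 0 < θ p ∧ θ p < π)
    (h1 : Real.tan (θ (P.tau p) / 2) < Real.tan (θ (P.iota p) / 2) * Real.exp (y (P.iota p)))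
    (h2 : Real.tan (θ (P.iota p) / 2) < Real.tan (θ (P.tau p) / 2) * Real.exp (y (P.iota p))) :
    IsLeft (side P x y θ p) := by
  unfold side
  apply IsLeft.T_mul
  rw [RTR_h]
  set α := θ (P.tau p)
  set β := θ (P.iota p)
  have c1 : 0 < Real.cos (α / 2) :=
    Real.cos_pos_of_mem_Ioo ⟨by have := (hθ (P.tau p)).1; linarith [Real.pi_pos],
      by have := (hθ (P.tau p)).2; linarith⟩
  have c2 : 0 < Real.cos (β / 2) :=
    Real.cos_pos_of_mem_Ioo ⟨by have := (hθ (P.iota p)).1; linarith [Real.pi_pos],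
      by have := (hθ (P.iota p)).2; linarith⟩
  have s1 : 0 < Real.sin (α / 2) :=
    Real.sin_pos_of_pos_of_lt_pi (by have := (hθ (P.tau p)).1; linarith)
      (by have := (hθ (P.tau p)).2; linarith [Real.pi_pos])
  have s2 : 0 < Real.sin (β / 2) :=
    Real.sin_pos_of_pos_of_lt_pi (by have := (hθ (P.iota p)).1; linarith)
      (by have := (hθ (P.iota p)).2; linarith [Real.pi_pos])
  set Y := y (P.iota p)
  have eY : Real.exp Y = Real.exp (Y / 2) * Real.exp (Y / 2) := by
    rw [← Real.exp_add]; congr 1; ring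
  have eI : Real.exp (-(Y / 2)) * Real.exp (Y / 2) = 1 := by
    rw [← Real.exp_add, neg_add_cancel, Real.exp_zero]
  have p1 := Real.exp_pos (Y / 2)
  have p2 := Real.exp_pos (-(Y / 2))
  rw [Real.tan_eq_sin_div_cos, Real.tan_eq_sin_div_cos, eY] at h1 h2
  set E := Real.exp (Y / 2)
  set E' := Real.exp (-(Y / 2))
  have k1 : Real.sin (α / 2) * Real.cos (β / 2) < Real.sin (β / 2) * Real.cos (α / 2) * (E * E) := by
    rw [div_mul_eq_mul_div, div_lt_div_iff₀ c1 c2] at h1
    linarith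
  have k2 : Real.sin (β / 2) * Real.cos (α / 2) < Real.sin (α / 2) * Real.cos (β / 2) * (E * E) := by
    rw [div_mul_eq_mul_div, div_lt_div_iff₀ c2 c1] at h2
    linarith
  have k1' := mul_lt_mul_of_pos_left k1 p2
  have k2' := mul_lt_mul_of_pos_left k2 p2
  refine ⟨?_, ?_, ?_, ?_⟩
  · simp only [Matrix.of_apply, Matrix.cons_val', Matrix.cons_val_zero,
      Matrix.cons_val_fin_one]
    have : E' * (Real.sin (β / 2) * Real.cos (α / 2) * (E * E)) =
      Real.sin (β / 2) * Real.cos (α / 2) * E := by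
      linear_combination (Real.sin (β / 2) * Real.cos (α / 2) * E) * eI
    linarith
  · simp only [Matrix.of_apply, Matrix.cons_val', Matrix.cons_val_zero, Matrix.cons_val_one,
      Matrix.cons_val_fin_one]
    positivity
  · simp only [Matrix.of_apply, Matrix.cons_val', Matrix.cons_val_zero, Matrix.cons_val_one,
      Matrix.cons_val_fin_one]
    have : 0 < Real.cos (β / 2) * Real.cos (α / 2) * E + Real.sin (β / 2) * Real.sin (α / 2) * E' := by
      positivity
    linarith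
  · simp only [Matrix.of_apply, Matrix.cons_val', Matrix.cons_val_one,
      Matrix.cons_val_fin_one]
    have : E' * (Real.sin (α / 2) * Real.cos (β / 2) * (E * E)) =
      Real.sin (α / 2) * Real.cos (β / 2) * E := by
      linear_combination (Real.sin (α / 2) * Real.cos (β / 2) * E) * eI
    linarith

theorem tan_θp (p : V) : Real.tan (θp P τ a p / 2) = lt P τ a p := by
  unfold θp
  rw [mul_div_cancel_left₀ _ (two_ne_zero), Real.tan_arctan]

/-- the twisted metric -/
noncomputable def twisted (m : HypMetric P) (hτ : ∀ p, τ (P.rho p) = τ p)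
    (hB : ∀ p, τ (P.B p) = τ p) (ha : IsLeafA m τ a) : HypMetric P where
  x := xp m τ a
  y := yp m τ a
  θ := θp P τ a
  x_pos := xp_pos m hτ ha
  y_pos := yp_pos m hB ha
  θ_pos := θp_pos ha.1
  θ_lt := θp_lt
  x_iota := xp_iota m hτ ha
  y_rho := yp_rho m hτ hB
  θ_rho := fun p => by unfold θp; rw [lt_rho hτ]
  closes_quad := by
    intro p h
    rw [side_cy2, cy2' m hτ ha, show P.tau (P.tau p) = p from h, close_quad m h,
      conj_neg_one]
    simp [T_neg_mul]
  closes_hex := by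
    intro p h
    rw [side_cy3, cy3' m hτ ha, show P.tau (P.tau (P.tau p)) = p from h, close_hex m h,
      conj_neg_one]
    simp [T_neg_mul]
  closes_oct := by
    intro p h
    rw [side_cy4, cy4' m hτ ha, show P.tau (P.tau (P.tau (P.tau p))) = p from h.1,
      close_oct m h, conj_neg_one]
    simp [T_neg_mul]
  alpha_left := by
    intro p
    apply isLeft_side P (fun p => ⟨θp_pos ha.1 p, θp_lt p⟩)
    · rw [tan_θp, tan_θp]
      exact lt_cmp1 m ha hB (P.iota p)
    · rw [tan_θp, tan_θp]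
      exact lt_cmp2 m ha hτ hB (P.iota p)
  beta_left := by
    intro p
    rw [cross' m hτ ha]
    exact isLeft_Gp m p
  beta_left_oct := by
    intro p h
    have e := cy2' m hτ ha p
    have e2 : cross P (xp m τ a) (θp P τ a) p * T (yp m τ a (P.iota p)) *
        cross P (xp m τ a) (θp P τ a) (P.tau p) =
        cy P (xp m τ a) (yp m τ a) (θp P τ a) p *
          cy P (xp m τ a) (yp m τ a) (θp P τ a) (P.tau p) *
          T (-(yp m τ a (P.iota (P.tau p)))) := by
      unfold cy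
      have e3 : ∀ A B : Matrix (Fin 2) (Fin 2) ℝ, ∀ y : ℝ, A * (B * T y) * T (-y) = A * B := by
        intro A B y
        rw [Matrix.mul_assoc, Matrix.mul_assoc, T_mul_neg, Matrix.mul_one]
      rw [e3]
    rw [e2, e]
    exact IsLeft.mul_T (IsLeft.mul_T (IsLeft.T_mul (isLeft_CY2 m h) _) _) _

section final

variable (hτ : ∀ p, τ (P.rho p) = τ p) (hB : ∀ p, τ (P.B p) = τ p) (ha : IsLeafA m τ a)

theorem tw_t (p : V) : (twisted m hτ hB ha).t p = lt P τ a p := tan_θp p

theorem tw_TT (p : V) : (twisted m hτ hB ha).TT p = Real.exp (τ p) / (a p * a (P.rho p)) := by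
  unfold HypMetric.TT
  rw [tw_t, lt_sq ha.1]

theorem tw_EE (p : V) : (twisted m hτ hB ha).EE p =
    Real.exp (τ p - m.y (P.rho p)) / (a p * a (P.kap p)) := by
  unfold HypMetric.EE
  rw [tw_t, tw_t]
  change Real.exp (-(yp m τ a (P.rho p))) * _ * _ = _
  unfold yp
  change Real.exp (-(m.y (P.rho p) - disp (P := P) τ a (P.rho p) +
    disp (P := P) τ a (P.kap p))) * _ * _ = _
  rw [disp_rho hτ, lt_eq ha.1, lt_eq ha.1]
  have h1 := (ha.1 p).ne'
  have h2 := (ha.1 (P.kap p)).ne'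
  set D := disp (P := P) τ a p
  set D' := disp (P := P) τ a (P.kap p)
  have e : Real.exp (-(m.y (P.rho p) - (τ p - D) + D')) * Real.exp D * Real.exp D' =
      Real.exp (τ p - m.y (P.rho p)) := by
    rw [← Real.exp_add, ← Real.exp_add]; congr 1; ring
  rw [← e]
  field_simp

theorem tw_E_lt (p : V) : (twisted m hτ hB ha).EE p < (twisted m hτ hB ha).TT p := by
  rw [tw_EE, tw_TT]
  have h := ord hB ha (P.rho p)
  have h1 := ha.1 p
  have h2 := ha.1 (P.rho p)
  have h3 := ha.1 (P.kap p)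
  change a (P.rho p) < Real.exp (m.y (P.rho p)) * a (P.kap p) at h
  rw [div_lt_div_iff₀ (by positivity) (by positivity), Real.exp_sub, div_mul_eq_mul_div,
    div_lt_iff₀ (Real.exp_pos _)]
  have h4 := Real.exp_pos (τ p)
  have h5 := mul_lt_mul_of_pos_left h (mul_pos h4 h1)
  linarith

theorem tw_SS_pos (p : V) : 0 < (twisted m hτ hB ha).SS p := by
  unfold HypMetric.SS
  have h1 := tw_E_lt m hτ hB ha p
  have h2 : 0 < (twisted m hτ hB ha).EE p := by
    rw [tw_EE]
    have h1 := ha.1 p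
    have h3 := ha.1 (P.kap p)
    positivity
  exact div_pos (by linarith) (by linarith)

theorem tw_DD (p : V) : (twisted m hτ hB ha).DD p =
    (1 + lt P τ a p ^ 2) * (twisted m hτ hB ha).SS p := by
  unfold HypMetric.DD HypMetric.RR HypMetric.SS HypMetric.TT
  rw [tw_t]
  ring

theorem tw_el (p : V) : (twisted m hτ hB ha).DD p /
    ((twisted m hτ hB ha).mu p * (twisted m hτ hB ha).DD (P.A p)) =
    (Real.exp (-(τ (P.A p))) * a (P.A p)) /
      (((m.G p) 0 1 * (Real.exp (-(τ (P.A p))) * a (P.A p)) + (m.G p) 0 0) *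
        (-((m.G p) 1 1) * (Real.exp (-(τ (P.A p))) * a (P.A p)) - (m.G p) 1 0)) := by
  have hapos := ha.1
  have hL := isLeft_G m p
  set w := Real.exp (-(τ (P.A p))) * a (P.A p) with hw
  have hwpos : 0 < w := mul_pos (Real.exp_pos _) (hapos _)
  -- left-hand side
  have hS1 := tw_SS_pos m hτ hB ha p
  have hS2 := tw_SS_pos m hτ hB ha (P.A p)
  have ht := lt_pos (P := P) (τ := τ) hapos p
  have hs := lt_pos (P := P) (τ := τ) hapos (P.iota p)
  have hlA : lt P τ a (P.A p) = lt P τ a (P.iota p) := lt_rho hτ _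
  have hX := XX_pos (t := lt P τ a p) (isLeft_Gp m (τ := τ) (a := a) p) hs
  have hXsq := XX_sq (g := Gp m τ a p) (t := lt P τ a p) (s := lt P τ a (P.iota p))
  have hexp : Real.exp ((twisted m hτ hB ha).x p) =
      XX (Gp m τ a p) (lt P τ a p) (lt P τ a (P.iota p)) ^ 2 := by
    change Real.exp (xp m τ a p) = _
    unfold xp
    rw [show (2 : ℝ) = ((2 : ℕ) : ℝ) by norm_num, Real.exp_nat_mul, Real.exp_log hX]
  have hlhs : (twisted m hτ hB ha).DD p /
      ((twisted m hτ hB ha).mu p * (twisted m hτ hB ha).DD (P.A p)) =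
      (1 + lt P τ a p ^ 2) * lt P τ a (P.iota p) /
        (XX (Gp m τ a p) (lt P τ a p) (lt P τ a (P.iota p)) ^ 2 * lt P τ a p *
          (1 + lt P τ a (P.iota p) ^ 2)) := by
    unfold HypMetric.mu
    rw [tw_DD, tw_DD, tw_t, tw_t, hexp, hlA]
    set t := lt P τ a p
    set s := lt P τ a (P.iota p)
    have hs2 : 0 < 1 + s ^ 2 := by positivity
    field_simp
  rw [hlhs]
  -- right-hand side
  set D := disp (P := P) τ a p with hD
  set D' := disp (P := P) τ a (P.iota p) with hD'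
  have h1 : lt P τ a (P.iota p) = Real.exp (disp (P := P) τ a (P.A p)) / a (P.A p) := by
    rw [← lt_eq hapos]
    unfold Pattern.A
    rw [lt_rho hτ]
  have h2 : disp (P := P) τ a (P.A p) = τ (P.A p) - D' := by
    unfold Pattern.A
    rw [disp_rho hτ, hτ]
  have hsw : lt P τ a (P.iota p) * Real.exp D' * w = 1 := by
    rw [h1, h2, hw, Real.exp_sub, Real.exp_neg]
    have e1 := (Real.exp_pos D').ne'
    have e2 := (Real.exp_pos (τ (P.A p))).ne'
    have e3 := (hapos (P.A p)).ne'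
    field_simp
  have c1 := Gp_c1 m hτ ha p
  have hP1 : 0 < (Gp m τ a p) 0 1 + lt P τ a (P.iota p) * (Gp m τ a p) 0 0 := by
    obtain ⟨g1, g2, g3, g4⟩ := isLeft_Gp m (τ := τ) (a := a) p
    have := mul_pos hs g1
    linarith
  rw [mul_right_comm, hXsq]
  have hnum := Mob_num hL hwpos
  have hden := Mob_den hL hwpos
  -- express the entries
  have f1 : (Gp m τ a p) 0 1 + lt P τ a (P.iota p) * (Gp m τ a p) 0 0 =
      lt P τ a (P.iota p) * Real.exp (-(D / 2)) * Real.exp (D' / 2) *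
        ((m.G p) 0 1 * w + (m.G p) 0 0) := by
    unfold Gp
    rw [← hD, ← hD', TMT]
    simp only [Matrix.of_apply, Matrix.cons_val', Matrix.cons_val_zero, Matrix.cons_val_one,
      Matrix.cons_val_fin_one]
    have eD' : Real.exp D' = Real.exp (D' / 2) * Real.exp (D' / 2) := by
      rw [← Real.exp_add]; congr 1; ring
    have n2 : Real.exp (-(D' / 2)) * Real.exp (D' / 2) = 1 := by
      rw [← Real.exp_add, neg_add_cancel, Real.exp_zero]
    rw [eD'] at hsw
    rw [show -D / 2 = -(D / 2) by ring]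
    linear_combination (-(Real.exp (-(D / 2)) * (m.G p) 0 1 * Real.exp (-(D' / 2)))) * hsw +
      (lt P τ a (P.iota p) * Real.exp (-(D / 2)) * Real.exp (D' / 2) * (m.G p) 0 1 * w) * n2
  have f2 : -(lt P τ a (P.iota p) * (Gp m τ a p) 1 0 + (Gp m τ a p) 1 1) =
      lt P τ a (P.iota p) * Real.exp (D / 2) * Real.exp (D' / 2) *
        (-((m.G p) 1 1) * w - (m.G p) 1 0) := by
    unfold Gp
    rw [← hD, ← hD', TMT]
    simp only [Matrix.of_apply, Matrix.cons_val', Matrix.cons_val_zero, Matrix.cons_val_one,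
      Matrix.cons_val_fin_one]
    have eD' : Real.exp D' = Real.exp (D' / 2) * Real.exp (D' / 2) := by
      rw [← Real.exp_add]; congr 1; ring
    have n2 : Real.exp (-(D' / 2)) * Real.exp (D' / 2) = 1 := by
      rw [← Real.exp_add, neg_add_cancel, Real.exp_zero]
    rw [eD'] at hsw
    rw [show -(-D / 2) = D / 2 by ring]
    linear_combination (Real.exp (D / 2) * (m.G p) 1 1 * Real.exp (-(D' / 2))) * hsw -
      (lt P τ a (P.iota p) * Real.exp (D / 2) * Real.exp (D' / 2) * (m.G p) 1 1 * w) * n2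
  set t := lt P τ a p
  set s := lt P τ a (P.iota p)
  set P1 := (Gp m τ a p) 0 1 + s * (Gp m τ a p) 0 0
  set NU := (m.G p) 0 1 * w + (m.G p) 0 0
  set DE := -((m.G p) 1 1) * w - (m.G p) 1 0
  have n1 : Real.exp (-(D / 2)) * Real.exp (D / 2) = 1 := by
    rw [← Real.exp_add, neg_add_cancel, Real.exp_zero]
  have eD' : Real.exp D' = Real.exp (D' / 2) * Real.exp (D' / 2) := by
    rw [← Real.exp_add]; congr 1; ring
  have hprod : P1 ^ 2 * t * w = s * (NU * DE) := by
    have : P1 ^ 2 * t = P1 * (t * P1) := by ring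
    rw [this, c1, f2, f1]
    rw [eD'] at hsw
    linear_combination (s ^ 2 * Real.exp (D' / 2) ^ 2 * NU * DE * w) * n1 +
      s * NU * DE * hsw
  have h1t : 0 < 1 + t ^ 2 := by positivity
  rw [div_eq_div_iff (by positivity) (by positivity)]
  linear_combination (-(1 + t ^ 2)) * hprod

end final

end leaf

theorem leaf {V : Type*} [Fintype V] (P : Pattern V) : S_LEAF P := by
  intro m τ a hτ ha
  refine ⟨twisted m hτ.1 hτ.2 ha, ⟨ha, tw_TT m hτ.1 hτ.2 ha, tw_EE m hτ.1 hτ.2 ha,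
    fun p => rfl, tw_el m hτ.1 hτ.2 ha⟩, disp (P := P) τ a, ?_, ?_, ?_⟩
  · intro p
    change T _ * cross P (xp m τ a) (θp P τ a) p = _
    rw [cross' m hτ.1 ha]
    unfold Gp
    rw [← Matrix.mul_assoc, ← Matrix.mul_assoc, T_mul_neg, Matrix.one_mul]
  · intro p
    change _ = m.y p - yp m τ a p
    unfold yp
    ring
  · intro p
    rw [disp_rho hτ.1]
    ring

end Run7.h778.MC
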