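import Pool.Agent.Run7.h778.MC.Base

/-! Piece ORDER of helper568's project on bending multicurves (MP_a29257_gt). -/

namespace Run7.h778.MC

open Real Matrix Run7.h568 Run7.h568.MC

variable {V : Type*} {P : Pattern V} (m : HypMetric P)

theorem isLeft_G (p : V) : IsLeft (m.G p) := m.beta_left p

theorem isLeft_CY (p : V) : IsLeft (CY m p) := IsLeft.mul_T (isLeft_G m p) _

theorem isLeft_CY2 {p : V} (h : P.Oct p) : IsLeft (CY m p * CY m (P.tau p)) := by
  have := m.beta_left_oct p h
  unfold CY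
  rw [← Matrix.mul_assoc]
  exact IsLeft.mul_T this _

theorem y_quad {q : V} (h : P.Quad (P.B q)) : m.y (P.iota (P.B q)) = m.y (P.A q) := by
  have h2 : P.tau (P.B q) = P.iota q := by
    apply P.tau_bij.1
    rw [show P.tau (P.tau (P.B q)) = P.B q from h, P.tau_iota]
  have h3 := m.y_rho (P.iota (P.B q))
  rw [← h3]
  change m.y (P.rho (P.tau (P.B q))) = _
  rw [h2]; rfl

theorem A_B_quad {q : V} (h : P.Quad (P.B q)) : P.A (P.B q) = P.B (P.A q) := by
  have h2 : P.tau (P.B q) = P.iota q := by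
    apply P.tau_bij.1
    rw [show P.tau (P.tau (P.B q)) = P.B q from h, P.tau_iota]
  have h3 := P.B_rho_B (P.iota (P.B q))
  change P.B (P.rho (P.tau (P.B q))) = P.A (P.B q) at h3
  rw [h2] at h3
  exact h3.symm

/-- in a non-quadrilateral face the image of the forward crossing is in front -/
theorem mob_lt_nonquad {q : V} (h : ¬ P.Quad (P.B q)) {w w' : ℝ} (hw : 0 < w) (hw' : 0 < w') :
    Mob (m.G q) w < Real.exp (m.y q) * Mob (m.G (P.B q)) w' := by
  have key : ∀ N : Matrix (Fin 2) (Fin 2) ℝ, IsLeft N →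
      T (m.y q) * m.G (P.B q) * N = m.G q →
      Mob (m.G q) w < Real.exp (m.y q) * Mob (m.G (P.B q)) w' := by
    intro N hN he
    rw [← he, ← Mob_T_mul]
    apply Mob_mul_lt (IsLeft.T_mul (isLeft_G m _) _) hN _ _ hw hw'
    · rw [he]; exact isLeft_G m q
    · rw [Matrix.det_mul, det_T, det_G]; norm_num
  rcases P.hex_or_oct h with h | h
  · apply key (T (m.y (P.iota (P.B q))) * CY m (P.tau (P.B q)))
    · exact IsLeft.T_mul (isLeft_CY m _) _
    · have := rel_hex m h
      rw [← this]
      unfold CY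
      simp only [Matrix.mul_assoc]
  · apply key (T (m.y (P.iota (P.B q))) * (CY m (P.tau (P.B q)) * CY m (P.tau (P.tau (P.B q)))))
    · exact IsLeft.T_mul (isLeft_CY2 m (P.oct_tau.2 h)) _
    · have := rel_oct m h
      rw [← this]
      unfold CY
      simp only [Matrix.mul_assoc]

theorem order_aux {τ a : V → ℝ} (hτ : ∀ p, τ (P.B p) = τ p) (ha : IsLeafA m τ a) (n : ℕ) :
    ∀ q, ¬ P.Quad (P.A^[n] (P.B q)) → a q < Real.exp (m.y q) * a (P.B q) := by
  induction n with
  | zero =>
    intro q hq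
    rw [ha.2 q, ha.2 (P.B q)]
    exact mob_lt_nonquad m hq (mul_pos (Real.exp_pos _) (ha.1 _))
      (mul_pos (Real.exp_pos _) (ha.1 _))
  | succ n ih =>
    intro q hq
    by_cases hQ : P.Quad (P.B q)
    · have e := A_B_quad hQ
      rw [Function.iterate_succ_apply, e] at hq
      have h1 := ih (P.A q) hq
      have hrel := rel_quad m hQ
      rw [ha.2 q, ha.2 (P.B q), ← Mob_T_mul, ← hrel]
      unfold CY
      rw [y_quad m hQ, ← Matrix.mul_assoc, Mob_mul_T]
      rw [Mob_lt_iff (IsLeft.T_mul (isLeft_G m _) _)]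
      · rw [e, hτ]
        have h2 : Real.exp (-m.y (P.A q)) * a (P.A q) < a (P.B (P.A q)) := by
          have e3 : Real.exp (-m.y (P.A q)) * (Real.exp (m.y (P.A q)) * a (P.B (P.A q))) =
              a (P.B (P.A q)) := by
            rw [← mul_assoc, ← Real.exp_add]; simp
          rw [← e3]
          exact mul_lt_mul_of_pos_left h1 (Real.exp_pos _)
        have h3 := mul_lt_mul_of_pos_left h2 (Real.exp_pos (-τ (P.A q)))
        calc _ = Real.exp (-τ (P.A q)) * (Real.exp (-m.y (P.A q)) * a (P.A q)) := by ring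
          _ < _ := h3
      · rw [Matrix.det_mul, det_T, det_G]; norm_num
      · exact mul_pos (Real.exp_pos _) (mul_pos (Real.exp_pos _) (ha.1 _))
      · exact mul_pos (Real.exp_pos _) (ha.1 _)
    · rw [ha.2 q, ha.2 (P.B q)]
      exact mob_lt_nonquad m hQ (mul_pos (Real.exp_pos _) (ha.1 _))
        (mul_pos (Real.exp_pos _) (ha.1 _))

theorem order [Fintype V] (P : Pattern V) : S_ORDER P := by
  intro m τ a hτ ha p
  obtain ⟨n, hn⟩ := P.alpha_face' (P.B p)
  exact order_aux m hτ.2 ha n p hn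

end Run7.h778.MC
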